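import Pool.Agent.Y8.EP.St

/-! Pointwise facts during a stage (endpoint dynamics). -/

open Set Filter Topology MeasureTheory

set_option autoImplicit false

namespace Pool.Agent.Y41.EP

open Pool.Agent.Y5 Pool.Agent.Y8.EP
open Pool.Agent.Y5.E (At Aw Ut Uw loc)
open Pool.Agent.Y5.F (vfk Yk Wk)

section seq

variable {κ lam N : ℝ} {L C ℓ : ℕ → ℝ} {B : ℕ → ℕ → ℝ}

lemma dd_pos (lam : ℝ) : 0 < dd lam := Real.exp_pos _

lemma dd_small (q : Pe κ lam N L C ℓ B) : dd lam ≤ 1 / 10 ^ 20 := q.exp_small (by norm_num)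

/-- `N * lam ^ 2 * 10^30 * dd` is tiny compared to `C n` -/
lemma dd_C (q : Pe κ lam N L C ℓ B) (n : ℕ) :
    10 ^ 30 * N * lam ^ 2 * dd lam ≤ 1 / 10 ^ 20 * C n := by
  have h1 := q.NE
  have h2 := q.EE_big
  have h3 := EE_pos lam
  have h4 := q.EE_lam
  have h5 := q.C_lo n
  have hN := q.N_one
  have hl := q.lamp
  have hd := dd_pos lam
  have hC := q.Cp n
  have hlE : lam ≤ EE lam := by linarith
  have h6 : EE lam ^ 5 * Real.exp (-(1 / 2) * lam)
      ≤ Real.exp (-(601 / 10000 + 1 / 10) * lam) := q.EE_exp 5 (by norm_num)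
  have h7 : Real.exp (-(601 / 10000 + 1 / 10) * lam)
      = Real.exp (-(601 / 10000) * lam) * Real.exp (-(1 / 10) * lam) := by
    rw [← Real.exp_add]; congr 1; ring
  have h8 : Real.exp (-(1 / 10) * lam) ≤ 1 / 10 ^ 20 := q.exp_small (by norm_num)
  have h9 : (0 : ℝ) < Real.exp (-(601 / 10000) * lam) := Real.exp_pos _
  have h10 : EE lam ^ 5 * dd lam ≤ C n * (1 / 10 ^ 20) := by
    rw [dd]
    calc _ ≤ Real.exp (-(601 / 10000) * lam) * Real.exp (-(1 / 10) * lam) := by
          rw [← h7]; exact h6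
      _ ≤ C n * (1 / 10 ^ 20) := by gcongr
  have h11 : 10 ^ 30 * N * lam ^ 2 * dd lam ≤ EE lam ^ 4 * dd lam := by
    have : 10 ^ 30 * N * lam ^ 2 ≤ EE lam ^ 4 := by
      calc 10 ^ 30 * N * lam ^ 2 ≤ EE lam * EE lam * EE lam ^ 2 := by gcongr; linarith
        _ = _ := by ring
    gcongr
  have h12 : EE lam ^ 4 * dd lam ≤ EE lam ^ 5 * dd lam := by
    have : EE lam ^ 4 ≤ EE lam ^ 5 := by
      calc EE lam ^ 4 = 1 * EE lam ^ 4 := by ring
        _ ≤ EE lam * EE lam ^ 4 := by gcongr; linarith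
        _ = _ := by ring
    gcongr
  linarith

/-- `N * lam * 10^20 * dd ≤ C n / 10 ^ 20` in the simplest form -/
lemma Ndd (q : Pe κ lam N L C ℓ B) (n : ℕ) :
    10 ^ 20 * (N * (lam * dd lam)) ≤ 1 / 10 ^ 20 * C n := by
  refine le_trans ?_ (dd_C q n)
  have hl1 := q.lam1
  have hN := q.N_one
  have hd := dd_pos lam
  have h : lam ≤ lam ^ 2 := by nlinarith
  calc 10 ^ 20 * (N * (lam * dd lam)) = 10 ^ 20 * N * lam * dd lam := by ring
    _ ≤ 10 ^ 30 * N * lam ^ 2 * dd lam := by gcongr <;> norm_num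

lemma Cexp (q : Pe κ lam N L C ℓ B) (n : ℕ) :
    Real.exp (-(1196 / 10000) * lam) ≤ Real.exp (-(8 / 1000) * lam) * C n := by
  have h5 := q.C_lo n
  have hl := q.lamp
  calc Real.exp (-(1196 / 10000) * lam)
      ≤ Real.exp (-(8 / 1000) * lam) * Real.exp (-(601 / 10000) * lam) := by
        rw [← Real.exp_add]
        apply Real.exp_le_exp.2
        linarith
    _ ≤ _ := by gcongr

/-- `lam * exp (-0.008 lam)` is tiny -/
lemma lam_exp8 (q : Pe κ lam N L C ℓ B) :
    10 ^ 30 * (lam * Real.exp (-(8 / 1000) * lam)) ≤ 1 / 10 ^ 20 := by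
  have h1 := q.EE_small 2 (α := -(8 / 1000)) (by norm_num)
  have h4 := q.EE_lam
  have h2 := q.EE_big
  have h3 := EE_pos lam
  have hl := q.lamp
  refine le_trans ?_ h1
  calc 10 ^ 30 * (lam * Real.exp (-(8 / 1000) * lam))
      = 10 ^ 30 * lam * Real.exp (-(8 / 1000) * lam) := by ring
    _ ≤ EE lam * EE lam * Real.exp (-(8 / 1000) * lam) := by gcongr <;> linarith
    _ = _ := by ring

lemma C_lam (q : Pe κ lam N L C ℓ B) (n : ℕ) : C n * lam ≤ 1 / 10 ^ 20 := by
  have h1 := q.EE_small 1 (α := -(599 / 10000)) (by norm_num)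
  have h2 := q.C_hi n
  have h4 := q.EE_lam
  have h3 := EE_pos lam
  have hl := q.lamp
  have hC := q.Cp n
  refine le_trans ?_ h1
  rw [pow_one, mul_comm]
  gcongr
  linarith

end seq

section st

variable {κ lam N : ℝ} {L C ℓ : ℕ → ℝ} {B : ℕ → ℕ → ℝ} {T : ℝ} {x w f : ℕ → ℝ → ℝ}
variable {n : ℕ} {σ : ℕ → ℝ} {t1 t : ℝ}

lemma σnn (h : Stg κ lam L T x w n σ) : ∀ i ≤ n, 0 ≤ σ i := by
  intro i
  induction i with
  | zero => intro _; rw [h.σ0]
  | succ i ih =>
    intro hi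
    exact (ih (by omega)).trans (h.σlt i (by omega)).le

lemma memI (h : Stg κ lam L T x w n σ) (hc : Cur κ lam L T x w n σ t1) {t : ℝ}
    (ht : t ∈ Ico (σ n) t1) : t ∈ Ico 0 T :=
  ⟨(σnn h n le_rfl).trans ht.1, ht.2.trans_le hc.leT⟩

lemma sqrtW_succ (g : Gd κ lam N L C ℓ B T x w f) {t : ℝ} (ht : t ∈ Ico 0 T) (m : ℕ) :
    √(Wk κ w m t) ≤ w m t + √(Wk κ w (m + 1) t) := by
  refine (Real.sqrt_le_sqrt (g.W_succ_le ht m)).trans ?_
  have hw0 := g.sy.w0 m t ht
  have h3 := Real.sqrt_nonneg (Wk κ w (m + 1) t)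
  have h4 := Real.sq_sqrt (g.W_nonneg (m + 1) t)
  apply Real.sqrt_le_iff.2
  constructor
  · positivity
  · nlinarith [mul_nonneg hw0 h3]

lemma w_le_W (g : Gd κ lam N L C ℓ B T x w f) {t : ℝ} (ht : t ∈ Ico 0 T) (m : ℕ) :
    w m t ≤ √(Wk κ w m t) := by
  refine Real.le_sqrt_of_sq_le ?_
  rw [g.W_succ ht]
  have := mul_nonneg (g.q.κk0 2).le (g.W_nonneg (m + 1) t)
  linarith

lemma th_le (q : Pe κ lam N L C ℓ B) (h : zz C x n t ≤ 1 + C n) :
    th lam C x n t ≤ 558 / 10000 * lam := by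
  have hCs := q.C_small n
  have hl := q.lamp
  unfold th
  have h0 : 0 ≤ max (zz C x n t - 8952 / 10000) 0 := le_max_right _ _
  have h1 : max (zz C x n t - 8952 / 10000) 0 ≤ 10481 / 100000 := by
    apply max_le
    · linarith
    · norm_num
  calc 1000 / 197 * lam * max (zz C x n t - 8952 / 10000) 0 ^ 2
      ≤ 1000 / 197 * lam * (10481 / 100000) ^ 2 := by gcongr
    _ = (1000 / 197 * (10481 / 100000) ^ 2) * lam := by ring
    _ ≤ 558 / 10000 * lam := by gcongr; norm_num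

lemma th_eq_zero (h : zz C x n t ≤ 8952 / 10000) : th lam C x n t = 0 := by
  unfold th
  rw [max_eq_right (by linarith)]
  ring

/-- the square of the first barrier -/
lemma bb_sq (q : Pe κ lam N L C ℓ B) (h : zz C x n t ≤ 1 + C n)
    (h0 : 3 / 4 * C n ≤ zz C x n t) :
    bb lam C x n 0 t ^ 2 ≤ 2 * (Real.exp (-(8 / 1000) * lam) * zz C x n t) := by
  have hl := q.lamp
  have e1 : Pp (0 + 1) = 598 / 10000 := by simp [Pp]; norm_num
  have e : bb lam C x n 0 t ^ 2
      = Real.exp (-(1196 / 10000) * lam) * Real.exp (2 * th lam C x n t) := by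
    unfold bb
    rw [e1, mul_pow, ← Real.exp_nat_mul, ← Real.exp_nat_mul]
    congr 1
    · congr 1; push_cast; ring
  rw [e]
  rcases le_total (zz C x n t) (8952 / 10000) with h1 | h1
  · rw [th_eq_zero h1, mul_zero, Real.exp_zero, mul_one]
    refine (Cexp q n).trans ?_
    have := Real.exp_pos (-(8 / 1000) * lam)
    have hC := q.Cp n
    calc Real.exp (-(8 / 1000) * lam) * C n ≤ Real.exp (-(8 / 1000) * lam) * (2 * zz C x n t) := by
          gcongr; linarith
      _ = _ := by ring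
  · have h2 := th_le q h
    have h3 : Real.exp (-(1196 / 10000) * lam) * Real.exp (2 * th lam C x n t)
        ≤ Real.exp (-(8 / 1000) * lam) := by
      rw [← Real.exp_add]
      apply Real.exp_le_exp.2
      linarith
    refine h3.trans ?_
    have := Real.exp_pos (-(8 / 1000) * lam)
    nlinarith

lemma bb_le (q : Pe κ lam N L C ℓ B) (h : zz C x n t ≤ 1 + C n) :
    bb lam C x n 0 t ≤ 1 / 10 ^ 20 := by
  have hl := q.lamp
  have e1 : Pp (0 + 1) = 598 / 10000 := by simp [Pp]; norm_num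
  unfold bb
  rw [e1]
  have h2 := th_le q h
  refine le_trans ?_ (q.exp_small (β := -(4 / 1000)) (by norm_num))
  rw [← Real.exp_add]
  apply Real.exp_le_exp.2
  linarith

/-- Pointwise facts. -/
structure Pw (κ lam : ℝ) (L C : ℕ → ℝ) (T : ℝ) (x w : ℕ → ℝ → ℝ) (n : ℕ)
    (t : ℝ) : Prop where
  mem : t ∈ Ico 0 T
  X1 : 99 / 100 < x n t
  X2 : x n t ≤ 3 / 2
  z0 : 0 < zz C x n t
  z1 : 3 / 4 * C n ≤ zz C x n t
  z2 : zz C x n t ≤ 1 + C n
  Zz : |x (n + 1) t| ≤ zz C x n t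
  Z1 : |x (n + 1) t| ≤ 1
  Zlo : -(C n / 4) < x (n + 1) t
  Y1 : √(Yk κ x w (n + 1) t) ≤ 1
  Y2 : √(Yk κ x w (n + 2) t) ≤ 1
  Y2' : Yk κ x w (n + 2) t ≤ 8 * (Real.exp (-(8 / 1000) * lam) * zz C x n t)
  W1 : √(Wk κ w (n + 1) t) ≤ 4 * dd lam
  w1 : w (n + 1) t ≤ 4 * dd lam
  low : Low lam L x w n t
  Yn : √(Yk κ x w n t) ≤ 3 / 2
  wn : w n t ≤ dd lam
  A1 : At lam x w (n + 1) t ≤ 16 / 10
  Uw1 : Uw L w (n + 1) t ≤ 2 * dd lam * L n
  Aw1 : Aw lam w (n + 1) t ≤ 2 * dd lam
  lc1 : loc L x w (n + 1) t ≤ 7 * dd lam * L n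

lemma act' (g : Gd κ lam N L C ℓ B T x w f) (h : Stg κ lam L T x w n σ)
    (hc : Cur κ lam L T x w n σ t1) {t : ℝ} (ht : t ∈ Ico (σ n) t1) :
    √(Yk κ x w (n + 1) t) ≤ 1 ∧ |x (n + 1) t| ≤ 1 ∧ zz C x n t ≤ 1 + C n := by
  have h1 := (hc.act t ht).1
  have h2 : √(Yk κ x w (n + 1) t) ≤ 1 := Real.sqrt_le_one.2 h1.le
  have h3 : |x (n + 1) t| ≤ 1 := (g.x_le (memI h hc ht) (n + 1)).trans h2
  refine ⟨h2, h3, ?_⟩
  unfold zz
  have := le_abs_self (x (n + 1) t)
  linarith

/-- the pointwise facts hold under the bootstrap hypotheses -/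
lemma pw (g : Gd κ lam N L C ℓ B T x w f) (h : Stg κ lam L T x w n σ)
    (hc : Cur κ lam L T x w n σ t1) (ub : Ub κ lam L x w n σ t1) {t : ℝ}
    (ht : t ∈ Ico (σ n) t1) (hy : Hy κ lam C x w n t) : Pw κ lam L C T x w n t := by
  have q := g.q
  have hI := memI h hc ht
  have hC := q.Cp n
  have hCs := q.C_small n
  have hl := q.lamp
  have hlb := q.lam_big
  have hL := q.Lp n
  have hd := dd_pos lam
  have hds := dd_small q
  have hs := q.sq_lam
  have hs0 := q.sq_lam0
  have hlow := ub.low n le_rfl t ht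
  have hYn := ub.Y n le_rfl t ht
  have hwn := ub.w n le_rfl t ht
  obtain ⟨hY1, hZ1, hz2⟩ := act' g h hc ht
  have hX1 := (hc.act t ht).2
  have hX2 : x n t ≤ 3 / 2 := ((le_abs_self _).trans (g.x_le hI n)).trans hYn
  have hZlo := hy.r
  have hz1 : 3 / 4 * C n ≤ zz C x n t := by unfold zz; linarith
  have hz0 : 0 < zz C x n t := by linarith
  have hZz : |x (n + 1) t| ≤ zz C x n t := by
    unfold zz
    rw [abs_le]
    constructor <;> linarith
  have hY2 := hy.Y.le
  have hb := bb_le q hz2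
  have hY21 : √(Yk κ x w (n + 2) t) ≤ 1 := by linarith
  have hY2' : Yk κ x w (n + 2) t ≤ 8 * (Real.exp (-(8 / 1000) * lam) * zz C x n t) := by
    have h1 := bb_sq q hz2 hz1
    calc Yk κ x w (n + 2) t = √(Yk κ x w (n + 2) t) ^ 2 := (Real.sq_sqrt (g.Y_nonneg _ _)).symm
      _ ≤ (2 * bb lam C x n 0 t) ^ 2 := by gcongr
      _ = 4 * bb lam C x n 0 t ^ 2 := by ring
      _ ≤ 4 * (2 * (Real.exp (-(8 / 1000) * lam) * zz C x n t)) := by gcongr
      _ = _ := by ring
  have hW1 := hy.W.le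
  have hw1 : w (n + 1) t ≤ 4 * dd lam := (w_le_W g hI (n + 1)).trans hW1
  have hxn : |x n t| = x n t := abs_of_pos (by linarith)
  have hA1 : At lam x w (n + 1) t ≤ 16 / 10 := by
    rw [Gd.A_succ, hxn]
    have h1 := hlow.A
    have h2 := g.A_nonneg hI n
    have h3 : (√lam)⁻¹ * At lam x w n t ≤ 1 / 10 ^ 15 * (1501 / 1000) := by gcongr
    linarith
  have hUw1 : Uw L w (n + 1) t ≤ 2 * dd lam * L n := by
    rw [Gd.Uw_succ]
    have h1 := hlow.Uw
    have h2 : L n * w n t ≤ dd lam * L n := by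
      calc L n * w n t ≤ L n * dd lam := by gcongr
        _ = _ := by ring
    have h3 : 2 * dd lam * (L n / lam) ≤ dd lam * L n := by
      calc 2 * dd lam * (L n / lam) = (2 / lam) * (dd lam * L n) := by ring
        _ ≤ 1 * (dd lam * L n) := by
            gcongr
            rw [div_le_one hl]; linarith
        _ = _ := one_mul _
    linarith
  have hAw1 : Aw lam w (n + 1) t ≤ 2 * dd lam := by
    rw [Gd.Aw_succ]
    have h1 := hlow.Aw
    have h2 := g.Aw_nonneg hI n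
    have h3 : (√lam)⁻¹ * Aw lam w n t ≤ 1 / 10 ^ 15 * (2 * dd lam) := by gcongr
    linarith
  have hlc1 : loc L x w (n + 1) t ≤ 7 * dd lam * L n := by
    have hm : ¬ (n + 1 = 0) := Nat.succ_ne_zero n
    rw [loc, if_neg hm, Nat.add_sub_cancel]
    have hzn : |x n t| + w n t ≤ 16 / 10 := by
      rw [hxn]
      linarith
    have hz2 : |x (n + 1 - 2) t| + w (n + 1 - 2) t ≤ 16 / 10 := by
      rcases n with _ | m
      · simp only [Nat.zero_add, Nat.reduceSubDiff] at *
        linarith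
      · have e : m + 1 + 1 - 2 = m := by omega
        rw [e]
        have := hlow.z (Nat.succ_ne_zero m)
        rw [Nat.add_sub_cancel] at this
        linarith
    have hw2 : w (n + 1 - 2) t ≤ dd lam := by
      rcases n with _ | m
      · simp only [Nat.zero_add, Nat.reduceSubDiff] at *
        linarith
      · have e : m + 1 + 1 - 2 = m := by omega
        rw [e]
        have := hlow.wz (Nat.succ_ne_zero m)
        rwa [Nat.add_sub_cancel] at this
    have hw0' := g.sy.w0 (n + 1 - 2) t hI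
    have hw0'' := g.sy.w0 n t hI
    have hs1 : |x n t| + w n t + |x (n + 1 - 2) t| + w (n + 1 - 2) t ≤ 32 / 10 := by
      linarith
    have hs2 : w n t + w (n + 1 - 2) t ≤ 2 * dd lam := by linarith
    calc L n * ((|x n t| + w n t + |x (n + 1 - 2) t| + w (n + 1 - 2) t)
            * (w n t + w (n + 1 - 2) t))
        ≤ L n * ((32 / 10) * (2 * dd lam)) := by gcongr
      _ = (64 / 10) * (dd lam * L n) := by ring
      _ ≤ 7 * (dd lam * L n) := by gcongr; norm_num
      _ = _ := by ring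
  exact ⟨hI, hX1, hX2, hz0, hz1, hz2, hZz, hZ1, hZlo, hY1, hY21, hY2', hW1, hw1, hlow, hYn, hwn,
    hA1, hUw1, hAw1, hlc1⟩

/-- the force on the mode `n+1` -/
lemma f1 (g : Gd κ lam N L C ℓ B T x w f) (p : Pw κ lam L C T x w n t) :
    |f (n + 1) t| ≤ 1 / 10 ^ 30 * (L n * zz C x n t) := by
  have q := g.q
  have hf := g.sy.fb (n + 1) t p.mem
  have hL := q.Lp n
  have hd := dd_pos lam
  have hl := q.lamp
  have hl1 := q.lam1
  have hN := q.N_one
  have hA0 := g.A_nonneg p.mem (n + 1)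
  have hAw0 := g.Aw_nonneg p.mem (n + 1)
  have hU0 := g.Uw_nonneg p.mem (n + 1)
  have t1 : L (n + 1) * (At lam x w (n + 1) t + √(Yk κ x w (n + 1) t)) * √(Wk κ w (n + 1) t)
      ≤ 11 * (lam * dd lam * L n) := by
    rw [q.L_succ n]
    calc lam * L n * (At lam x w (n + 1) t + √(Yk κ x w (n + 1) t)) * √(Wk κ w (n + 1) t)
        ≤ lam * L n * (16 / 10 + 1) * (4 * dd lam) := by
          have := p.A1
          have := p.W1
          have := p.Y1
          gcongr
      _ = (104 / 10) * (lam * dd lam * L n) := by ring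
      _ ≤ _ := by gcongr; norm_num
  have t2 : Uw L w (n + 1) t * √(Yk κ x w (n + 1) t) ≤ 2 * (lam * dd lam * L n) := by
    calc Uw L w (n + 1) t * √(Yk κ x w (n + 1) t)
        ≤ (2 * dd lam * L n) * 1 := by
          have := p.Uw1
          have := p.Y1
          gcongr
      _ = 2 * (1 * dd lam * L n) := by ring
      _ ≤ _ := by gcongr
  have t3 : L (n + 1) * Aw lam w (n + 1) t * √(Yk κ x w (n + 1 + 1) t)
      ≤ 2 * (lam * dd lam * L n) := by
    rw [q.L_succ n]
    have h2 : √(Yk κ x w (n + 1 + 1) t) ≤ 1 := p.Y2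
    calc lam * L n * Aw lam w (n + 1) t * √(Yk κ x w (n + 1 + 1) t)
        ≤ lam * L n * (2 * dd lam) * 1 := by
          have := p.Aw1
          gcongr
      _ = _ := by ring
  have t4 : loc L x w (n + 1) t ≤ 7 * (lam * dd lam * L n) := by
    refine p.lc1.trans ?_
    calc 7 * dd lam * L n = 7 * (1 * dd lam * L n) := by ring
      _ ≤ _ := by gcongr
  have hsm := Ndd q n
  have hz1 := p.z1
  have hC := q.Cp n
  calc |f (n + 1) t| ≤ N * (11 * (lam * dd lam * L n) + 2 * (lam * dd lam * L n)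
        + 2 * (lam * dd lam * L n) + 7 * (lam * dd lam * L n)) := by
        refine hf.trans ?_
        gcongr
    _ = 22 / 10 ^ 20 * (10 ^ 20 * (N * (lam * dd lam))) * L n := by ring
    _ ≤ 22 / 10 ^ 20 * (1 / 10 ^ 20 * C n) * L n := by gcongr
    _ ≤ 22 / 10 ^ 20 * (1 / 10 ^ 20 * (4 / 3 * zz C x n t)) * L n := by
        gcongr
        linarith
    _ = (22 / 10 ^ 20 * (1 / 10 ^ 20) * (4 / 3)) * (L n * zz C x n t) := by ring
    _ ≤ _ := by
        have : 0 < L n * zz C x n t := mul_pos hL p.z0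
        gcongr ?_ * _
        norm_num

/-- the force on the mode `n` -/
lemma f0 (g : Gd κ lam N L C ℓ B T x w f) (p : Pw κ lam L C T x w n t) :
    |f n t| ≤ 1 / 10 ^ 30 * (L n * zz C x n t) := by
  have q := g.q
  have hf := g.sy.fb n t p.mem
  have hL := q.Lp n
  have hd := dd_pos lam
  have hl := q.lamp
  have hl1 := q.lam1
  have hN := q.N_one
  have hA0 := g.A_nonneg p.mem n
  have hAw0 := g.Aw_nonneg p.mem n
  have hU0 := g.Uw_nonneg p.mem n
  have hGl : L n / lam ≤ L n := div_le_self (by positivity) hl1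
  have hone : dd lam * L n ≤ lam * dd lam * L n := by
    calc dd lam * L n = 1 * dd lam * L n := by ring
      _ ≤ _ := by gcongr
  have hW : √(Wk κ w n t) ≤ 5 * dd lam := by
    have h1 : √(Wk κ w n t) ≤ w n t + √(Wk κ w (n + 1) t) := sqrtW_succ g p.mem n
    have := p.wn
    have := p.W1
    linarith
  have s1 : L n * (At lam x w n t + √(Yk κ x w n t)) * √(Wk κ w n t)
      ≤ 16 * (dd lam * L n) := by
    calc L n * (At lam x w n t + √(Yk κ x w n t)) * √(Wk κ w n t)
        ≤ L n * (1501 / 1000 + 3 / 2) * (5 * dd lam) := by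
          have := p.low.A
          have := p.Yn
          gcongr
      _ = (3001 / 1000 * 5) * (dd lam * L n) := by ring
      _ ≤ _ := by gcongr; norm_num
  have s2 : Uw L w n t * √(Yk κ x w n t) ≤ 3 * (dd lam * L n) := by
    calc Uw L w n t * √(Yk κ x w n t) ≤ (2 * dd lam * L n) * (3 / 2) := by
          have h1 := p.low.Uw
          have h2 : 2 * dd lam * (L n / lam) ≤ 2 * dd lam * L n := by
            gcongr
          have h3 := h1.trans h2
          have := p.Yn
          gcongr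
      _ = _ := by ring
  have s3 : L n * Aw lam w n t * √(Yk κ x w (n + 1) t) ≤ 2 * (dd lam * L n) := by
    calc L n * Aw lam w n t * √(Yk κ x w (n + 1) t) ≤ L n * (2 * dd lam) * 1 := by
          have := p.low.Aw
          have := p.Y1
          gcongr
      _ = _ := by ring
  have s4 : loc L x w n t ≤ 20 * (dd lam * L n) := by
    calc loc L x w n t ≤ 20 * dd lam * (L n / lam) := p.low.lc
      _ ≤ 20 * dd lam * L n := by gcongr
      _ = _ := by ring
  have hsm := Ndd q n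
  have hz1 := p.z1
  calc |f n t| ≤ N * (16 * (dd lam * L n) + 3 * (dd lam * L n)
        + 2 * (dd lam * L n) + 20 * (dd lam * L n)) := by
        refine hf.trans ?_
        gcongr
    _ = 41 * (N * (dd lam * L n)) := by ring
    _ ≤ 41 * (N * (lam * dd lam * L n)) := by gcongr
    _ = 41 / 10 ^ 20 * (10 ^ 20 * (N * (lam * dd lam))) * L n := by ring
    _ ≤ 41 / 10 ^ 20 * (1 / 10 ^ 20 * C n) * L n := by gcongr
    _ ≤ 41 / 10 ^ 20 * (1 / 10 ^ 20 * (4 / 3 * zz C x n t)) * L n := by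
        gcongr
        linarith
    _ = (41 / 10 ^ 20 * (1 / 10 ^ 20) * (4 / 3)) * (L n * zz C x n t) := by ring
    _ ≤ _ := by
        have : 0 < L n * zz C x n t := mul_pos hL p.z0
        gcongr ?_ * _
        norm_num

end st

end Pool.Agent.Y41.EP
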