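import Pool.Agent.Y41.EP.Pw

/-! The growth of the mode `n + 1` and the lower bound of the mode `n` during a stage (endpoint
dynamics): the statement `S_RAT`. -/

open Set Filter Topology MeasureTheory

set_option autoImplicit false

namespace Pool.Agent.Y41.EP

open Pool.Agent.Y5 Pool.Agent.Y8.EP
open Pool.Agent.Y5.E (At Aw Ut Uw loc)
open Pool.Agent.Y5.F (vfk Yk Wk)

lemma main_ineq {X0 X Z c b : ℝ} (h99 : 99 / 100 ≤ X0) (h1 : X0 ≤ 1) (hX : X0 ≤ X)
    (hX2 : X ≤ 3 / 2) (hc : 0 < c) (hZ : -(c / 4) < Z) (hb : 999 / 1000 ≤ b)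
    (hb2 : b ≤ 1001 / 1000) :
    (999 / 1000 * X0 - 9 / 10) * (Z + c) ≤ c * X ^ 2 + Z * (b * X - 9 / 10) := by
  have hX0 : 0 ≤ X := by linarith
  have hXsq : 98 / 100 ≤ X ^ 2 := by nlinarith
  rcases le_total 0 Z with h | h
  · have e1 : 0 ≤ Z * ((b - 999 / 1000) * X + 999 / 1000 * (X - X0)) := by
      apply mul_nonneg h
      have : 0 ≤ (b - 999 / 1000) * X := mul_nonneg (by linarith) hX0
      linarith
    have e2 : 0 ≤ c * (X ^ 2 - (999 / 1000 * X0 - 9 / 10)) := by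
      apply mul_nonneg hc.le
      linarith
    nlinarith
  · have e1 : (999 / 1000 * X0 - 9 / 10) * (Z + c) ≤ 1 / 10 * c := by
      have h2 : 0 ≤ Z + c := by linarith
      calc (999 / 1000 * X0 - 9 / 10) * (Z + c) ≤ 1 / 10 * (Z + c) := by gcongr; linarith
        _ ≤ 1 / 10 * c := by linarith
    have e2 : 98 / 100 * c ≤ c * X ^ 2 := by nlinarith
    have h3 : b * X - 9 / 10 ≤ 61 / 100 := by
      have : b * X ≤ 1001 / 1000 * (3 / 2) := by gcongr
      linarith
    have h4 : 0 ≤ b * X - 9 / 10 := by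
      have : 999 / 1000 * (99 / 100) ≤ b * X := by gcongr; linarith
      linarith
    have e3 : -(61 / 100 * (c / 4)) ≤ Z * (b * X - 9 / 10) := by
      have : -Z * (b * X - 9 / 10) ≤ (c / 4) * (61 / 100) := by
        gcongr
        linarith
      linarith
    linarith

section st

variable {κ lam N : ℝ} {L C ℓ : ℕ → ℝ} {B : ℕ → ℕ → ℝ} {T : ℝ} {x w f : ℕ → ℝ → ℝ}
variable {n : ℕ} {σ : ℕ → ℝ} {t1 t : ℝ}

lemma U_small (q : Pe κ lam N L C ℓ B) {m : ℕ} {t : ℝ} (h : Low lam L x w m t) :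
    Ut L x m t ≤ 2 / 10 ^ 30 * L m := by
  have hl := q.lamp
  have hlb := q.lam_big
  have hL := q.Lp m
  refine h.U.trans ?_
  calc 1501 / 1000 * (L m / lam) = 1501 / 1000 * (1 / lam) * L m := by ring
    _ ≤ 1501 / 1000 * (1 / 10 ^ 30) * L m := by gcongr
    _ ≤ _ := by gcongr ?_ * _; norm_num

lemma ℓ_lam (q : Pe κ lam N L C ℓ B) (m : ℕ) : ℓ m * lam ≤ L m := by
  have hl := q.lamp
  rcases m with _ | m
  · have h := q.ℓ_zero
    have h1 := mul_nonneg (q.ℓ_nonneg 0) hl.le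
    linarith
  · have hL := q.Lp (m + 1)
    rw [q.ℓ_eq m]
    have e : 9 / 10 * (L (m + 1) / lam) * lam = 9 / 10 * L (m + 1) := by field_simp
    rw [e]
    linarith

lemma ℓ_small (q : Pe κ lam N L C ℓ B) (m : ℕ) : ℓ m ≤ 1 / 10 ^ 30 * L m := by
  have h := ℓ_lam q m
  have hlb := q.lam_big
  have h0 := q.ℓ_nonneg m
  have h1 : ℓ m * 10 ^ 30 ≤ ℓ m * lam := by gcongr
  linarith

/-- lower bound for the growth of the next mode -/
lemma Zder (g : Gd κ lam N L C ℓ B T x w f) (p : Pw κ lam L C T x w n t) {X0 : ℝ}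
    (h99 : 99 / 100 ≤ X0) (hX01 : X0 ≤ 1) (hX0 : X0 ≤ x n t) :
    (999 / 1000 * X0 - 9 / 10 - 1 / 10 ^ 7) * (L n * zz C x n t)
      ≤ vfk κ L C ℓ B (fun k => x k t) (n + 1) + f (n + 1) t := by
  have q := g.q
  have hL := q.Lp n
  have hL1 := q.Lp (n + 1)
  have hC := q.Cp n
  have hC1 := q.Cp (n + 1)
  have hl := q.lamp
  have hlb := q.lam_big
  have hZ := p.Zz
  have hz0 := p.z0
  have hez : zz C x n t = x (n + 1) t + C n := rfl
  have hmain := main_ineq h99 hX01 hX0 p.X2 hC p.Zlo (q.B_lo n (n + 1) (by omega))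
    (q.B_hi n (n + 1) (by omega))
  rw [← hez] at hmain
  set z := zz C x n t with hzd
  set X := x n t with hXd
  set Z := x (n + 1) t with hZd
  have hP : 0 < L n * z := by positivity
  have hZ0 := abs_nonneg Z
  -- strain
  have h3 := Gd.strain (x := x) q (show n ≤ n + 1 by omega) t
  set S := ∑ i ∈ Finset.range n, L i * B i (n + 1) * x i t with hS
  have hS1 : |S| ≤ 1 / 10 ^ 20 * L n := by
    refine h3.trans ?_
    have := U_small q p.low
    linarith
  have hZS : -(1 / 10 ^ 20 * (L n * z)) ≤ Z * S := by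
    have : |Z * S| ≤ z * (1 / 10 ^ 20 * L n) := by
      rw [abs_mul]; gcongr
    have h5 := neg_le_of_abs_le this
    linarith
  -- the other terms
  obtain ⟨_, _, h4, h5⟩ := g.vf_terms p.mem (n + 1)
  have h6 : L (n + 1) * ∑' k : ℕ, B (n + 1) (n + 1 + 1 + k)
        * (κ ^ (2 * (k + 1)) * x (n + 1 + 1 + k) t ^ 2)
      ≤ 1 / 10 ^ 10 * (L n * z) := by
    refine h4.trans ?_
    have hY : κ ^ 2 * Yk κ x w (n + 1 + 1) t ≤ 8 * (Real.exp (-(8 / 1000) * lam) * z) := by
      refine (mul_le_of_le_one_left (g.Y_nonneg _ _) q.κsq).trans p.Y2'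
    have he := lam_exp8 q
    rw [q.L_succ n]
    calc 1001 / 1000 * (lam * L n) * (κ ^ 2 * Yk κ x w (n + 1 + 1) t)
        ≤ 1001 / 1000 * (lam * L n) * (8 * (Real.exp (-(8 / 1000) * lam) * z)) := by gcongr
      _ = 8008 / 1000 / 10 ^ 30 * (10 ^ 30 * (lam * Real.exp (-(8 / 1000) * lam)))
          * (L n * z) := by ring
      _ ≤ 8008 / 1000 / 10 ^ 30 * (1 / 10 ^ 20) * (L n * z) := by gcongr
      _ ≤ _ := by gcongr ?_ * _; norm_num
  have h7 : κ ^ 2 * (L (n + 1) * C (n + 1) * Z * x (n + 1 + 1) t)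
      ≤ 1 / 10 ^ 10 * (L n * z) := by
    refine (le_abs_self _).trans (h5.trans ?_)
    have h8 : |x (n + 1 + 1) t| ≤ 1 := (g.x_le p.mem (n + 2)).trans p.Y2
    have h9 := C_lam q (n + 1)
    rw [q.L_succ n]
    calc C (n + 1) * (lam * L n) * |x (n + 1 + 1) t| * |Z|
        ≤ C (n + 1) * (lam * L n) * 1 * z := by gcongr
      _ = (C (n + 1) * lam) * (L n * z) := by ring
      _ ≤ 1 / 10 ^ 20 * (L n * z) := by gcongr
      _ ≤ _ := by gcongr ?_ * _; norm_num
  have h8 := neg_le_of_abs_le (f1 g p)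
  rw [← hzd] at h8
  have hvf : vfk κ L C ℓ B (fun k => x k t) (n + 1) = L n * (C n * X ^ 2
      + Z * (B n (n + 1) * X - 9 / 10)) + Z * S
      - κ ^ 2 * (L (n + 1) * C (n + 1) * Z * x (n + 1 + 1) t)
      - L (n + 1) * ∑' k : ℕ, B (n + 1) (n + 1 + 1 + k)
          * (κ ^ (2 * (k + 1)) * x (n + 1 + 1 + k) t ^ 2) := by
    have hn1 : ¬ (n + 1 = 0) := Nat.succ_ne_zero n
    unfold vfk
    rw [if_neg hn1, Finset.sum_range_succ, q.ℓ_succ n]
    have e5 : n + 1 - 1 = n := by omega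
    rw [e5]
    ring
  rw [hvf]
  have h9 := mul_le_mul_of_nonneg_left hmain hL.le
  have e9 : L n * ((999 / 1000 * X0 - 9 / 10) * z) = (999 / 1000 * X0 - 9 / 10) * (L n * z) := by
    ring
  rw [e9] at h9
  have e10 : (999 / 1000 * X0 - 9 / 10 - 1 / 10 ^ 7) * (L n * z)
      = (999 / 1000 * X0 - 9 / 10) * (L n * z) - 1 / 10 ^ 7 * (L n * z) := by ring
  rw [e10]
  linarith

/-- the force on the previous mode -/
lemma fp (g : Gd κ lam N L C ℓ B T x w f) {m : ℕ} (h : Stg κ lam L T x w (m + 1) σ)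
    (ub : Ub κ lam L x w (m + 1) σ t1) (ht : t ∈ Ico (σ (m + 1)) t1)
    (p : Pw κ lam L C T x w (m + 1) t) :
    |f m t| ≤ 1 / 10 ^ 10 * L m := by
  have q := g.q
  have hf := g.sy.fb m t p.mem
  have hL := q.Lp m
  have hd := dd_pos lam
  have hl := q.lamp
  have hl1 := q.lam1
  have hN := q.N_one
  have hmt : t ∈ Ico (σ m) t1 := ⟨(h.σlt m (by omega)).le.trans ht.1, ht.2⟩
  have hlow := ub.low m (by omega) t hmt
  have hYm := ub.Y m (by omega) t hmt
  have hwm := ub.w m (by omega) t hmt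
  have hYn := p.Yn
  have hA0 := g.A_nonneg p.mem m
  have hAw0 := g.Aw_nonneg p.mem m
  have hU0 := g.Uw_nonneg p.mem m
  have hGl : L m / lam ≤ L m := div_le_self (by positivity) hl1
  have hW : √(Wk κ w m t) ≤ 6 * dd lam := by
    have h1 : √(Wk κ w m t) ≤ w m t + √(Wk κ w (m + 1) t) := sqrtW_succ g p.mem m
    have h2 : √(Wk κ w (m + 1) t) ≤ w (m + 1) t + √(Wk κ w (m + 1 + 1) t) :=
      sqrtW_succ g p.mem (m + 1)
    have := p.wn
    have := p.W1
    linarith
  have s1 : L m * (At lam x w m t + √(Yk κ x w m t)) * √(Wk κ w m t)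
      ≤ 19 * (dd lam * L m) := by
    calc L m * (At lam x w m t + √(Yk κ x w m t)) * √(Wk κ w m t)
        ≤ L m * (1501 / 1000 + 3 / 2) * (6 * dd lam) := by
          have := hlow.A
          gcongr
      _ = (3001 / 1000 * 6) * (dd lam * L m) := by ring
      _ ≤ _ := by gcongr; norm_num
  have s2 : Uw L w m t * √(Yk κ x w m t) ≤ 3 * (dd lam * L m) := by
    calc Uw L w m t * √(Yk κ x w m t) ≤ (2 * dd lam * L m) * (3 / 2) := by
          have h1 := hlow.Uw
          have h2 : 2 * dd lam * (L m / lam) ≤ 2 * dd lam * L m := by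
            gcongr
          have h3 := h1.trans h2
          gcongr
      _ = _ := by ring
  have s3 : L m * Aw lam w m t * √(Yk κ x w (m + 1) t) ≤ 3 * (dd lam * L m) := by
    calc L m * Aw lam w m t * √(Yk κ x w (m + 1) t) ≤ L m * (2 * dd lam) * (3 / 2) := by
          have := hlow.Aw
          gcongr
      _ = _ := by ring
  have s4 : loc L x w m t ≤ 20 * (dd lam * L m) := by
    calc loc L x w m t ≤ 20 * dd lam * (L m / lam) := hlow.lc
      _ ≤ 20 * dd lam * L m := by gcongr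
      _ = _ := by ring
  have hsm := Ndd q m
  have hCs := q.C_small m
  have hsm2 : 10 ^ 20 * (N * (lam * dd lam)) ≤ 1 := by linarith
  calc |f m t| ≤ N * (19 * (dd lam * L m) + 3 * (dd lam * L m)
        + 3 * (dd lam * L m) + 20 * (dd lam * L m)) := by
        refine hf.trans ?_
        gcongr
    _ = 45 * (N * (1 * dd lam * L m)) := by ring
    _ ≤ 45 * (N * (lam * dd lam * L m)) := by gcongr
    _ = 45 / 10 ^ 20 * (10 ^ 20 * (N * (lam * dd lam))) * L m := by ring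
    _ ≤ 45 / 10 ^ 20 * 1 * L m := by gcongr
    _ ≤ _ := by gcongr ?_ * _; norm_num

/-- lower bound of the previous mode -/
lemma prev_ge (g : Gd κ lam N L C ℓ B T x w f) {m : ℕ} (h : Stg κ lam L T x w (m + 1) σ)
    (hc : Cur κ lam L T x w (m + 1) σ t1) (ub : Ub κ lam L x w (m + 1) σ t1) (htt : t ≤ t1)
    (hP : ∀ τ ∈ Ico (σ (m + 1)) t, Pw κ lam L C T x w (m + 1) τ) :
    ∀ τ ∈ Ico (σ (m + 1)) t, 95 / 100 ≤ x m τ := by
  have q := g.q
  have hlm := q.lamp
  have hL := q.Lp m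
  have hC := q.Cp m
  have hCs := q.C_small m
  have hℓ := ℓ_small q m
  have hκ := q.κsq_s
  intro τ hτ
  set R := 3 / 10 ^ 6 * L m with hR
  have hα0 : 0 ≤ σ (m + 1) := σnn h _ le_rfl
  have h1 := mono_of (f := fun s => x m s + R * s)
    (f' := fun s => (vfk κ L C ℓ B (fun k => x k s) m + f m s) + R) hτ.1
    (((g.cont m).mono fun s hs => ⟨hα0.trans hs.1, hs.2.trans_lt
      (hτ.2.trans_le (htt.trans hc.leT))⟩).add (by fun_prop))
    (fun s hs => by
      have := (g.derivAt m (t := s) ⟨hα0.trans_lt hs.1, hs.2.trans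
        (hτ.2.trans_le (htt.trans hc.leT))⟩).fun_add ((hasDerivAt_id s).const_mul R)
      simpa using this)
    (fun s hs => by
      have hs0 : s ∈ Ico (σ (m + 1)) t := ⟨hs.1.le, hs.2.trans hτ.2⟩
      have hs1 : s ∈ Ico (σ (m + 1)) t1 := ⟨hs.1.le, hs0.2.trans_le htt⟩
      have hsm : s ∈ Ico (σ m) t1 := ⟨(h.σlt m (by omega)).le.trans hs1.1, hs1.2⟩
      have hsI := memI h hc hs1
      have p := hP s hs0
      have h2 := g.vf_ge hsI m
      have h3 : |x m s| ≤ 3 / 2 := (g.x_le hsI _).trans (ub.Y m (by omega) s hsm)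
      have h4 : |x (m + 1) s| ≤ 3 / 2 := (g.x_le hsI _).trans p.Yn
      have h6 : Yk κ x w (m + 1) s ≤ 9 / 4 := by
        calc Yk κ x w (m + 1) s = √(Yk κ x w (m + 1) s) ^ 2 := (Real.sq_sqrt (g.Y_nonneg _ _)).symm
          _ ≤ (3 / 2) ^ 2 := by have := p.Yn; gcongr
          _ = _ := by norm_num
      have h7 := U_small q (ub.low m (by omega) s hsm)
      have h8 : C m * L m * |x (m + 1) s| ≤ 2 / 10 ^ 20 * L m := by
        calc C m * L m * |x (m + 1) s| ≤ 1 / 10 ^ 20 * L m * (3 / 2) := by gcongr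
          _ = (3 / 2 / 10 ^ 20) * L m := by ring
          _ ≤ _ := by gcongr ?_ * _; norm_num
      have h9 : (ℓ m + C m * L m * |x (m + 1) s|
          + 1001 / 1000 * Ut L x m s) * |x m s| ≤ (1 / 10 ^ 10 * L m) * (3 / 2) := by
        have := Gd.U_nonneg (x := x) q m s
        have := q.ℓ_nonneg m
        gcongr
        linarith
      have h10 : 1001 / 1000 * L m * (κ ^ 2 * Yk κ x w (m + 1) s) ≤ 25 / 10 ^ 7 * L m := by
        have h0 := g.Y_nonneg (m + 1) s
        calc 1001 / 1000 * L m * (κ ^ 2 * Yk κ x w (m + 1) s)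
            ≤ 1001 / 1000 * L m * (1 / 10 ^ 6 * (9 / 4)) := by gcongr
          _ = (1001 / 1000 * (1 / 10 ^ 6 * (9 / 4))) * L m := by ring
          _ ≤ _ := by gcongr; norm_num
      have h11 := Gd.src_nonneg (x := x) q m s
      have h13 := fp g h ub hs1 p
      rw [hR]
      linarith)
  have hel : (τ - σ (m + 1)) * L m ≤ 62 / 100 := by
    have h2 := hc.le
    have h3 : τ - σ (m + 1) ≤ 62 / 100 * lam / L (m + 1) := by
      have := hτ.2
      linarith
    rw [q.L_succ m] at h3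
    have e : 62 / 100 * lam / (lam * L m) = 62 / 100 / L m := by field_simp
    rw [e, le_div_iff₀ hL] at h3
    exact h3
  have h2 : R * τ - R * σ (m + 1) = 3 / 10 ^ 6 * ((τ - σ (m + 1)) * L m) := by
    rw [hR]; ring
  have h3 := h.prev (Nat.succ_ne_zero m)
  rw [Nat.add_sub_cancel] at h3
  linarith

/-- the loss of the mode `0` -/
noncomputable def dl (ℓ : ℕ → ℝ) (n : ℕ) : ℝ := if n = 0 then 3 / 2 * ℓ 0 else 0

lemma dl_time (g : Gd κ lam N L C ℓ B T x w f) (hc : Cur κ lam L T x w n σ t1)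
    (h1 : σ n ≤ t) (h2 : t ≤ t1) : dl ℓ n * (t - σ n) ≤ 1 / 10 ^ 6 := by
  have q := g.q
  unfold dl
  split_ifs with hn
  · subst hn
    have hL := q.Lp 0
    have hl := q.lamp
    have hℓ := q.ℓ_nonneg 0
    have h3 : t - σ 0 ≤ 62 / 100 * lam / L 0 := by
      have := hc.le
      linarith
    have h4 := q.ℓ_zero
    calc 3 / 2 * ℓ 0 * (t - σ 0) ≤ 3 / 2 * ℓ 0 * (62 / 100 * lam / L 0) := by gcongr
      _ = 93 / 100 * ((ℓ 0 * lam) / L 0) := by ring
      _ ≤ 93 / 100 * (1 / 10 ^ 6) := by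
          have h5 : (ℓ 0 * lam) / L 0 ≤ 1 / 10 ^ 6 := by
            rw [div_le_iff₀ hL]
            linarith
          exact mul_le_mul_of_nonneg_left h5 (by norm_num)
      _ ≤ _ := by norm_num
  · rw [zero_mul]; norm_num

/-- the strain of the mode `n` beats the damping -/
lemma strain_ge (g : Gd κ lam N L C ℓ B T x w f) (h : Stg κ lam L T x w n σ)
    (hc : Cur κ lam L T x w n σ t1) (ub : Ub κ lam L x w n σ t1) (htt : t ≤ t1)
    (hP : ∀ τ ∈ Ico (σ n) t, Pw κ lam L C T x w n τ) {τ : ℝ} (hτ : τ ∈ Ico (σ n) t) :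
    -dl ℓ n ≤ -(ℓ n * x n τ) + x n τ * ∑ i ∈ Finset.range n, L i * B i n * x i τ := by
  have q := g.q
  have p := hP τ hτ
  have hX1 := p.X1
  have hX2 := p.X2
  rcases n with _ | m
  · unfold dl
    rw [if_pos rfl]
    simp only [Finset.range_zero, Finset.sum_empty, mul_zero, add_zero]
    have := q.ℓ_nonneg 0
    nlinarith
  · unfold dl
    rw [if_neg (Nat.succ_ne_zero m), Finset.sum_range_succ, neg_zero, q.ℓ_succ m]
    have h1 := prev_ge g h hc ub htt hP τ hτ
    have hmt : τ ∈ Ico (σ m) t1 := ⟨(h.σlt m (by omega)).le.trans hτ.1, hτ.2.trans_le htt⟩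
    have h2 := U_small q (ub.low m (by omega) τ hmt)
    have h3 := (abs_le.1 (Gd.strain (x := x) g.q (m := m) (k := m + 1) (by omega) τ)).1
    have hB := g.q.B_lo m (m + 1) (by omega)
    have hL := g.q.Lp m
    have h4 : L m * (999 / 1000) * (95 / 100) ≤ L m * B m (m + 1) * x m τ := by
      gcongr
    have h5 : 0 ≤ (∑ i ∈ Finset.range m, L i * B i (m + 1) * x i τ
        + L m * B m (m + 1) * x m τ) - 9 / 10 * L m := by
      linarith
    have h6 := mul_nonneg (by linarith : 0 ≤ x (m + 1) τ) h5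
    linarith

/-- lower bound for the growth of the current mode -/
lemma Xlo (g : Gd κ lam N L C ℓ B T x w f) (p : Pw κ lam L C T x w n t)
    (hst : -dl ℓ n ≤ -(ℓ n * x n t) + x n t * ∑ i ∈ Finset.range n, L i * B i n * x i t) :
    -dl ℓ n - 11 / 10 ^ 7 * (L n * zz C x n t)
      ≤ vfk κ L C ℓ B (fun k => x k t) n + f n t := by
  have q := g.q
  have hL := q.Lp n
  have hl1 := q.lam1
  have hd := dd_pos lam
  have hds := dd_small q
  have hN := q.N_one
  have hz0 := p.z0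
  have hz1 := p.z1
  have hC := q.Cp n
  have hCs := q.C_small n
  have hκ := q.κsq_s
  have hκ0 := q.κk0 2
  obtain ⟨_, _, h3, h4⟩ := g.vf_terms p.mem n
  have h5 := neg_abs_le (f n t)
  have h5' := f0 g p
  have hP : 0 < L n * zz C x n t := by positivity
  have h6 : κ ^ 2 * (L n * C n * x n t * x (n + 1) t) ≤ 1 / 10 ^ 10 * (L n * zz C x n t) := by
    refine (le_abs_self _).trans (h4.trans ?_)
    have h7 : |x n t| ≤ 3 / 2 := (g.x_le p.mem n).trans p.Yn
    have h8 := p.Zz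
    calc C n * L n * |x (n + 1) t| * |x n t| ≤ 1 / 10 ^ 20 * L n * zz C x n t * (3 / 2) := by
          gcongr
      _ = (3 / 2 / 10 ^ 20) * (L n * zz C x n t) := by ring
      _ ≤ _ := by gcongr ?_ * _; norm_num
  have h7 := Gd.src_nonneg (x := x) q n t
  -- the energy of the tail
  have hsq : x (n + 1) t ^ 2 ≤ zz C x n t := by
    have h8 := p.Zz
    have h9 := p.Z1
    have h10 := abs_nonneg (x (n + 1) t)
    rw [← sq_abs, sq]
    calc |x (n + 1) t| * |x (n + 1) t| ≤ 1 * zz C x n t := by gcongr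
      _ = _ := one_mul _
  have hw : w (n + 1) t ^ 2 ≤ 1 / 10 ^ 10 * zz C x n t := by
    have h8 := p.w1
    have h9 := g.sy.w0 (n + 1) t p.mem
    have h10 := Ndd q n
    have h11 : dd lam ≤ N * (lam * dd lam) := by
      calc dd lam = 1 * (1 * dd lam) := by ring
        _ ≤ _ := by gcongr
    have h12 : dd lam ≤ 1 / 10 ^ 20 * zz C x n t := by linarith
    calc w (n + 1) t ^ 2 ≤ (4 * dd lam) ^ 2 := by gcongr
      _ = 16 * (dd lam * dd lam) := by ring
      _ ≤ 16 * (1 / 10 ^ 20 * (1 / 10 ^ 20 * zz C x n t)) := by gcongr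
      _ = (16 / 10 ^ 40) * zz C x n t := by ring
      _ ≤ _ := by gcongr ?_ * _; norm_num
  have hY2 : κ ^ 2 * Yk κ x w (n + 1 + 1) t ≤ 1 / 10 ^ 10 * zz C x n t := by
    have h8 : Real.exp (-(8 / 1000) * lam) ≤ 1 / 10 ^ 20 := q.exp_small (by norm_num)
    calc κ ^ 2 * Yk κ x w (n + 1 + 1) t ≤ 1 * (8 * (Real.exp (-(8 / 1000) * lam) * zz C x n t)) := by
          have := p.Y2'
          have := q.κsq
          have := g.Y_nonneg (n + 2) t
          gcongr
      _ ≤ 1 * (8 * (1 / 10 ^ 20 * zz C x n t)) := by gcongr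
      _ = (8 / 10 ^ 20) * zz C x n t := by ring
      _ ≤ _ := by gcongr ?_ * _; norm_num
  have hY1 : Yk κ x w (n + 1) t ≤ 1001 / 1000 * zz C x n t := by
    rw [g.Y_succ p.mem (n + 1)]
    linarith
  have h8 : L n * ∑' k : ℕ, B n (n + 1 + k) * (κ ^ (2 * (k + 1)) * x (n + 1 + k) t ^ 2)
      ≤ 105 / 10 ^ 8 * (L n * zz C x n t) := by
    refine h3.trans ?_
    have := g.Y_nonneg (n + 1) t
    calc 1001 / 1000 * L n * (κ ^ 2 * Yk κ x w (n + 1) t)
        ≤ 1001 / 1000 * L n * (1 / 10 ^ 6 * (1001 / 1000 * zz C x n t)) := by gcongr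
      _ = (1001 / 1000 * (1 / 10 ^ 6) * (1001 / 1000)) * (L n * zz C x n t) := by ring
      _ ≤ _ := by gcongr ?_ * _; norm_num
  unfold Gd.src at h7
  unfold vfk
  simp only
  linarith

end st

/-- The growth of the mode `n+1` and the lower bound of the mode `n` during a stage. -/
theorem t_RAT : S_RAT := by
  intro κ lam N L C ℓ B T x w f n σ t1 t g h hc ub ht hy
  have q := g.q
  have hlm := q.lamp
  have hlmb := q.lam_big
  have hC := q.Cp n
  have hCs := q.C_small n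
  have h0 : 0 ≤ σ n := σnn h n le_rfl
  have hL := q.Lp n
  have htT : t < T := ht.2.trans_le hc.leT
  -- pointwise facts
  have hpw : ∀ τ ∈ Ico (σ n) t, Pw κ lam L C T x w n τ := fun τ hτ =>
    pw g h hc ub ⟨hτ.1, hτ.2.trans ht.2⟩ (hy τ hτ)
  have hsub : Icc (σ n) t ⊆ Ico 0 T := fun τ hτ => ⟨h0.trans hτ.1, hτ.2.trans_lt htT⟩
  set z' : ℝ → ℝ := fun τ => vfk κ L C ℓ B (fun k => x k τ) (n + 1) + f (n + 1) τ with hz'
  have hzc : ContinuousOn (zz C x n) (Icc (σ n) t) :=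
    ((g.cont (n + 1)).mono hsub).add continuousOn_const
  have hzd : ∀ τ ∈ Ioo (σ n) t, HasDerivAt (zz C x n) (z' τ) τ := fun τ hτ => by
    have hτT : τ ∈ Ioo 0 T := ⟨h0.trans_lt hτ.1, hτ.2.trans htT⟩
    exact (g.derivAt (n + 1) hτT).add_const (C n)
  have h88 : ∀ τ ∈ Ioo (σ n) t, 88 / 1000 * (L n * zz C x n τ) ≤ z' τ := fun τ hτ => by
    have p := hpw τ ⟨hτ.1.le, hτ.2⟩
    refine le_trans ?_ (Zder g p (X0 := 99 / 100) le_rfl (by norm_num) p.X1.le)
    have := mul_pos hL p.z0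
    gcongr
    norm_num
  have hz'0 : ∀ τ ∈ Ioo (σ n) t, 0 ≤ z' τ := fun τ hτ => by
    refine le_trans ?_ (h88 τ hτ)
    have p := hpw τ ⟨hτ.1.le, hτ.2⟩
    have := mul_pos hL p.z0
    positivity
  have hmonoAll : ∀ τ ∈ Icc (σ n) t, zz C x n (σ n) ≤ zz C x n τ := fun τ hτ =>
    mono_of hτ.1 (hzc.mono (Icc_subset_Icc_right hτ.2))
      (fun s hs => hzd s ⟨hs.1, hs.2.trans_le hτ.2⟩)
      (fun s hs => hz'0 s ⟨hs.1, hs.2.trans_le hτ.2⟩)
  have hz0 : 7 / 8 * C n ≤ zz C x n (σ n) := by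
    have h1 := h.ng 0
    have e : Pn 0 = 603 / 10000 := by simp [Pn]
    rw [e, add_zero] at h1
    have h2 : Real.exp (-(603 / 10000) * lam) ≤ C n / 8 := by
      have h3 : Real.exp (-(603 / 10000) * lam)
          = Real.exp (-(2 / 10000) * lam) * Real.exp (-(601 / 10000) * lam) := by
        rw [← Real.exp_add]; congr 1; ring
      have h4 : Real.exp (-(2 / 10000) * lam) ≤ 1 / 10 ^ 20 := q.exp_small (by norm_num)
      rw [h3]
      calc Real.exp (-(2 / 10000) * lam) * Real.exp (-(601 / 10000) * lam)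
          ≤ 1 / 10 ^ 20 * C n := by
            have := q.C_lo n
            gcongr
        _ ≤ _ := by linarith
    unfold zz
    linarith
  have hz78 : ∀ τ ∈ Icc (σ n) t, 7 / 8 * C n ≤ zz C x n τ := fun τ hτ =>
    hz0.trans (hmonoAll τ hτ)
  have hzhi : ∀ τ ∈ Icc (σ n) t, zz C x n τ ≤ 1 + C n := fun τ hτ =>
    (act' g h hc ⟨hτ.1, hτ.2.trans_lt ht.2⟩).2.2
  -- lower bound for the mode
  have hXlow : ∀ b ∈ Icc (σ n) t, 9998 / 10000 ≤ x n b := by
    intro b hb
    have hbt : b ≤ t1 := hb.2.trans ht.2.le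
    set d := dl ℓ n with hd
    have hmono := mono_of (f := fun τ => x n τ + 13 / 10 ^ 6 * zz C x n τ + d * τ)
      (f' := fun τ => (vfk κ L C ℓ B (fun k => x k τ) n + f n τ) + 13 / 10 ^ 6 * z' τ + d) hb.1
      (by
        refine ContinuousOn.add (ContinuousOn.add ?_ ?_) (by fun_prop)
        · exact (g.cont n).mono ((Icc_subset_Icc_right hb.2).trans hsub)
        · exact continuousOn_const.mul (hzc.mono (Icc_subset_Icc_right hb.2)))
      (fun τ hτ => by
        have hτ1 : τ ∈ Ioo (σ n) t := ⟨hτ.1, hτ.2.trans_le hb.2⟩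
        have hτT : τ ∈ Ioo 0 T := ⟨h0.trans_lt hτ1.1, hτ1.2.trans htT⟩
        have h1 := g.derivAt n hτT
        have h2 := (hzd τ hτ1).const_mul (13 / 10 ^ 6 : ℝ)
        have h3 := (h1.fun_add h2).fun_add ((hasDerivAt_id τ).const_mul d)
        simpa using h3)
      (fun τ hτ => by
        have hτ1 : τ ∈ Ioo (σ n) t := ⟨hτ.1, hτ.2.trans_le hb.2⟩
        have hτ2 : τ ∈ Ico (σ n) t := ⟨hτ1.1.le, hτ1.2⟩
        have p := hpw τ hτ2
        have hst := strain_ge g h hc ub ht.2.le hpw hτ2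
        have h1 := Xlo g p hst
        have h2 := h88 τ hτ1
        have h3 := mul_pos hL p.z0
        rw [← hd] at h1
        linarith)
    have hdt : d * (b - σ n) ≤ 1 / 10 ^ 6 := dl_time g hc hb.1 hbt
    have h1 := hzhi b hb
    have h2 := h.init
    have e : d * b - d * σ n = d * (b - σ n) := by ring
    have hmono' : x n (σ n) + 13 / 10 ^ 6 * zz C x n (σ n) + d * σ n
        ≤ x n b + 13 / 10 ^ 6 * zz C x n b + d * b := hmono
    linarith
  have h985 : ∀ τ ∈ Ioo (σ n) t, 985 / 10000 * (L n * zz C x n τ) ≤ z' τ := fun τ hτ => by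
    have p := hpw τ ⟨hτ.1.le, hτ.2⟩
    refine le_trans ?_ (Zder g p (X0 := 9998 / 10000) (by norm_num) (by norm_num)
      (hXlow τ ⟨hτ.1.le, hτ.2.le⟩))
    have := mul_pos hL p.z0
    gcongr
    norm_num
  refine ⟨fun τ hτ => ⟨z' τ, hzd τ hτ, h985 τ hτ⟩, hz78 t ⟨ht.1.le, le_rfl⟩,
    hXlow t ⟨ht.1.le, le_rfl⟩, ?_⟩
  -- the duration
  have hmono := mono_of (f := fun τ => Real.log (zz C x n τ) - 985 / 10000 * L n * τ)
    (f' := fun τ => z' τ / zz C x n τ - 985 / 10000 * L n) ht.1.le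
    (by
      refine ContinuousOn.sub (ContinuousOn.log hzc ?_) (by fun_prop)
      intro τ hτ
      have := hz78 τ hτ
      have h2 : 0 < zz C x n τ := by linarith
      exact h2.ne')
    (fun τ hτ => by
      have h1 := hz78 τ ⟨hτ.1.le, hτ.2.le⟩
      have h2 : 0 < zz C x n τ := by linarith
      have h3 := (hzd τ hτ).log h2.ne'
      have h4 := h3.fun_sub ((hasDerivAt_id τ).const_mul (985 / 10000 * L n))
      simpa using h4)
    (fun τ hτ => by
      have h1 := hz78 τ ⟨hτ.1.le, hτ.2.le⟩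
      have h2 : 0 < zz C x n τ := by linarith
      have h3 := h985 τ hτ
      have h5 : 985 / 10000 * L n ≤ z' τ / zz C x n τ := by
        rw [le_div_iff₀ h2]
        refine le_trans (le_of_eq ?_) h3
        ring
      linarith)
  have hlog1 : Real.log (zz C x n t) ≤ 1 := by
    have h1 := hzhi t ⟨ht.1.le, le_rfl⟩
    have h2 := hz78 t ⟨ht.1.le, le_rfl⟩
    have h3 := Real.log_le_sub_one_of_pos (show 0 < zz C x n t by linarith)
    linarith
  have hlog2 : -(601 / 10000) * lam - 1 ≤ Real.log (zz C x n (σ n)) := by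
    rw [Real.le_log_iff_exp_le (by linarith)]
    have h9 := q.C_lo n
    have h10 : Real.exp (-(601 / 10000) * lam - 1)
        = Real.exp (-(601 / 10000) * lam) * Real.exp (-1) := by
      rw [← Real.exp_add]; congr 1
    rw [h10]
    have h11 : Real.exp (-1) ≤ 7 / 8 := by
      have := Real.exp_neg_one_lt_d9; linarith
    calc Real.exp (-(601 / 10000) * lam) * Real.exp (-1) ≤ C n * (7 / 8) := by gcongr
      _ ≤ zz C x n (σ n) := by linarith
  have hmono' : Real.log (zz C x n (σ n)) - 985 / 10000 * L n * σ n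
      ≤ Real.log (zz C x n t) - 985 / 10000 * L n * t := hmono
  have e : (t - σ n) * L n = L n * t - L n * σ n := by ring
  rw [e]
  linarith

end Pool.Agent.Y41.EP
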